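import Pool.Agent.Helper46_BAN.INVIP
import Pool.Agent.Helper68_BAN.Stmt2

set_option autoImplicit false

/-!
# INVIP2: an inner product invariant under all linear symmetries of a nonsymmetric gauge
(squad BAN, helper46)
-/

namespace Pool.Agent.BAN.H46

open Filter Topology Set Module
open scoped NNReal

/-- A gauge on a finite-dimensional space is Lipschitz and comparable with the norm. -/
theorem gau_bounds (V : Type) [NormedAddCommGroup V] [InnerProductSpace ℝ V]
    [FiniteDimensional ℝ V] (φ : V → ℝ) (hφ : Gau φ) :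
    ∃ c C : ℝ, 0 < c ∧ 0 ≤ C ∧ (∀ v, c * ‖v‖ ≤ φ v) ∧ (∀ v, φ v ≤ C * ‖v‖) ∧
      ∀ x y, |φ x - φ y| ≤ C * ‖x - y‖ := by
  have _ : ProperSpace V := FiniteDimensional.proper ℝ V
  have h0 : φ 0 = 0 := by
    have := hφ.hom 0 0 le_rfl
    simpa using this
  have hnn : ∀ v, 0 ≤ φ v := by
    intro v
    by_cases hv : v = 0
    · rw [hv, h0]
    · exact (hφ.pos v hv).le
  let b := stdOrthonormalBasis ℝ V
  have hup : ∀ v, φ v ≤ (∑ i, max (φ (b i)) (φ (-(b i)))) * ‖v‖ := by
    intro v
    have h1 : v = ∑ i, b.repr v i • b i := (b.sum_repr v).symm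
    calc φ v = φ (∑ i, b.repr v i • b i) := by rw [← h1]
      _ ≤ ∑ i, φ (b.repr v i • b i) :=
          Finset.le_sum_of_subadditive φ h0.le hφ.sub _ _
      _ ≤ ∑ i, |b.repr v i| * max (φ (b i)) (φ (-(b i))) := by
          refine Finset.sum_le_sum fun i _ => ?_
          rcases le_total 0 (b.repr v i) with h | h
          · rw [hφ.hom _ _ h, abs_of_nonneg h]
            exact mul_le_mul_of_nonneg_left (le_max_left _ _) h
          · have h2 : b.repr v i • b i = (-(b.repr v i)) • (-(b i)) := by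
              rw [neg_smul, smul_neg, neg_neg]
            rw [h2, hφ.hom _ _ (by linarith), abs_of_nonpos h]
            exact mul_le_mul_of_nonneg_left (le_max_right _ _) (by linarith)
      _ ≤ ∑ i, ‖v‖ * max (φ (b i)) (φ (-(b i))) := by
          refine Finset.sum_le_sum fun i _ => ?_
          have h2 : |b.repr v i| ≤ ‖v‖ := by
            rw [← b.repr.norm_map v, ← Real.norm_eq_abs]
            exact PiLp.norm_apply_le _ _
          exact mul_le_mul_of_nonneg_right h2 (le_max_of_le_left (hnn _))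
      _ = (∑ i, max (φ (b i)) (φ (-(b i)))) * ‖v‖ := by rw [← Finset.mul_sum, mul_comm]
  have hS : 0 ≤ ∑ i, max (φ (b i)) (φ (-(b i))) :=
    Finset.sum_nonneg fun i _ => le_max_of_le_left (hnn _)
  have hlip : ∀ x y, |φ x - φ y| ≤ (∑ i, max (φ (b i)) (φ (-(b i)))) * ‖x - y‖ := by
    intro x y
    rw [abs_le]
    constructor
    · have h1 := hφ.sub (y - x) x
      rw [sub_add_cancel] at h1
      have h2 := hup (y - x)
      rw [norm_sub_rev] at h2
      linarith
    · have h1 := hφ.sub (x - y) y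
      rw [sub_add_cancel] at h1
      have h2 := hup (x - y)
      linarith
  have hcont : Continuous φ := by
    have : LipschitzWith ⟨_, hS⟩ φ := by
      refine LipschitzWith.of_dist_le_mul fun x y => ?_
      rw [Real.dist_eq, dist_eq_norm]
      exact hlip x y
    exact this.continuous
  by_cases hV : ∃ v0 : V, v0 ≠ 0
  · obtain ⟨v0, hv0⟩ := hV
    have hne : (Metric.sphere (0 : V) 1).Nonempty := by
      refine ⟨‖v0‖⁻¹ • v0, ?_⟩
      rw [mem_sphere_zero_iff_norm, norm_smul, norm_inv, norm_norm]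
      exact inv_mul_cancel₀ (norm_pos_iff.2 hv0).ne'
    obtain ⟨w, hw, hmin⟩ := (isCompact_sphere (0 : V) 1).exists_isMinOn hne hcont.continuousOn
    have hw1 : ‖w‖ = 1 := by rwa [mem_sphere_zero_iff_norm] at hw
    refine ⟨φ w, _, hφ.pos w (fun h => by rw [h, norm_zero] at hw1; norm_num at hw1), hS,
      fun v => ?_, hup, hlip⟩
    by_cases hv : v = 0
    · rw [hv, h0, norm_zero, mul_zero]
    have hv0 : 0 < ‖v‖ := norm_pos_iff.2 hv
    have hmem : ‖v‖⁻¹ • v ∈ Metric.sphere (0 : V) 1 := by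
      rw [mem_sphere_zero_iff_norm, norm_smul, norm_inv, norm_norm]
      exact inv_mul_cancel₀ hv0.ne'
    have h3 : φ w ≤ φ (‖v‖⁻¹ • v) := hmin hmem
    rw [hφ.hom _ _ (by positivity)] at h3
    have h4 := mul_le_mul_of_nonneg_right h3 hv0.le
    have h5 : ‖v‖⁻¹ * φ v * ‖v‖ = φ v := by field_simp
    linarith
  · push Not at hV
    refine ⟨1, _, one_pos, hS, fun v => ?_, hup, hlip⟩
    rw [hV v, h0]; simp

/-- INVIP2: an inner product invariant under all linear symmetries of a gauge. -/
theorem invip2 : INVIP2Stmt := by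
  intro V _ _ _ φ hφ
  obtain ⟨c, C, hc, -, h1, h2, -⟩ := gau_bounds V φ hφ
  exact invip_gen ℝ V φ c C hc h1 h2

end Pool.Agent.BAN.H46
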