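import Pool.Agent.Helper10_BAN.Stmt

set_option autoImplicit false

/-!
# MAPC: the map `Q` (squad BAN, helper46)
-/

namespace Pool.Agent.BAN.H46

open Set
open scoped NNReal

section

variable {E : Type} [NormedAddCommGroup E] [InnerProductSpace ℝ E]

theorem radial_lip (y z : E) (g h : ℝ) (hg0 : 0 ≤ g) (hg : g ≤ ‖y‖) (hh0 : 0 ≤ h) (hh : h ≤ ‖z‖) :
    ‖(g / ‖y‖) • y - (h / ‖z‖) • z‖ ≤ |g - h| + 2 * ‖y - z‖ := by
  by_cases hy : y = 0
  · subst hy
    have hg' : g = 0 := by rw [norm_zero] at hg; linarith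
    subst hg'
    rw [smul_zero, zero_sub, norm_neg, norm_smul, zero_sub, abs_neg, abs_of_nonneg hh0,
      Real.norm_of_nonneg (by positivity)]
    have : h / ‖z‖ * ‖z‖ ≤ h := by
      by_cases hz : ‖z‖ = 0
      · rw [hz, mul_zero]; exact hh0
      · rw [div_mul_cancel₀ _ hz]
    have := norm_nonneg ((0 : E) - z)
    linarith
  by_cases hz : z = 0
  · subst hz
    have hh' : h = 0 := by rw [norm_zero] at hh; linarith
    subst hh'
    rw [smul_zero, sub_zero, norm_smul, sub_zero, abs_of_nonneg hg0,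
      Real.norm_of_nonneg (by positivity), div_mul_cancel₀ _ (norm_ne_zero_iff.2 hy)]
    have := norm_nonneg (y - (0 : E))
    linarith
  have hy0 : 0 < ‖y‖ := norm_pos_iff.2 hy
  have hz0 : 0 < ‖z‖ := norm_pos_iff.2 hz
  have h1 : (g / ‖y‖) • y - (h / ‖z‖) • z
      = ((g - h) / ‖y‖) • y + (h / ‖z‖) • (y - z) + (h * ((‖z‖ - ‖y‖) / (‖y‖ * ‖z‖))) • y := by
    have h2 : g / ‖y‖ = (g - h) / ‖y‖ + h / ‖z‖ + h * ((‖z‖ - ‖y‖) / (‖y‖ * ‖z‖)) := by
      field_simp
      ring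
    rw [h2]
    module
  rw [h1]
  refine (norm_add₃_le).trans ?_
  have h3 : ‖((g - h) / ‖y‖) • y‖ = |g - h| := by
    rw [norm_smul, norm_div, norm_norm, div_mul_cancel₀ _ hy0.ne', Real.norm_eq_abs]
  have h4 : ‖(h / ‖z‖) • (y - z)‖ ≤ ‖y - z‖ := by
    rw [norm_smul, Real.norm_of_nonneg (by positivity)]
    have : h / ‖z‖ ≤ 1 := (div_le_one hz0).2 hh
    exact mul_le_of_le_one_left (norm_nonneg _) this
  have h5 : ‖(h * ((‖z‖ - ‖y‖) / (‖y‖ * ‖z‖))) • y‖ ≤ ‖y - z‖ := by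
    rw [norm_smul, Real.norm_eq_abs, abs_mul, abs_of_nonneg hh0, abs_div,
      abs_of_pos (mul_pos hy0 hz0)]
    have h6 : |‖z‖ - ‖y‖| ≤ ‖y - z‖ := by
      rw [norm_sub_rev]; exact abs_norm_sub_norm_le z y
    have h7 : h * (|‖z‖ - ‖y‖| / (‖y‖ * ‖z‖)) * ‖y‖ = (h / ‖z‖) * |‖z‖ - ‖y‖| := by
      field_simp
    rw [h7]
    have : h / ‖z‖ ≤ 1 := (div_le_one hz0).2 hh
    calc (h / ‖z‖) * |‖z‖ - ‖y‖| ≤ 1 * |‖z‖ - ‖y‖| := by gcongr
      _ ≤ ‖y - z‖ := by rw [one_mul]; exact h6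
  linarith

variable (e : E)

theorem x0_sub (x z : E) : x0 e x - x0 e z = x0 e (x - z) := by
  unfold x0; rw [inner_sub_right]

theorem abs_x0_le (he : ‖e‖ = 1) (x : E) : |x0 e x| ≤ ‖x‖ := by
  unfold x0
  have := abs_real_inner_le_norm e x
  rwa [he, one_mul] at this

theorem inner_e_xp (he : ‖e‖ = 1) (x : E) : inner ℝ e (xp e x) = 0 := by
  unfold xp x0
  rw [inner_sub_right, inner_smul_right, real_inner_self_eq_norm_sq, he]
  ring

theorem x_eq (x : E) : x = x0 e x • e + xp e x := by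
  unfold xp; abel

theorem norm_sq_eq (he : ‖e‖ = 1) (x : E) : ‖x‖ ^ 2 = x0 e x ^ 2 + ‖xp e x‖ ^ 2 := by
  have h := norm_add_sq_real (x0 e x • e) (xp e x)
  rw [← x_eq e x, inner_smul_left, inner_e_xp e he, norm_smul, he, mul_one, Real.norm_eq_abs,
    sq_abs] at h
  simpa using h

theorem xp_sub (x z : E) : xp e x - xp e z = xp e (x - z) := by
  unfold xp
  rw [← x0_sub, sub_smul]
  abel

theorem norm_xp_le (he : ‖e‖ = 1) (x : E) : ‖xp e x‖ ≤ ‖x‖ := by
  have h := norm_sq_eq e he x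
  have h2 : ‖xp e x‖ ^ 2 ≤ ‖x‖ ^ 2 := by nlinarith [sq_nonneg (x0 e x)]
  exact (pow_le_pow_iff_left₀ (norm_nonneg _) (norm_nonneg _) two_ne_zero).1 h2

theorem inner_x_xp (he : ‖e‖ = 1) (x : E) : inner ℝ x (xp e x) = ‖xp e x‖ ^ 2 := by
  have h : inner ℝ x (xp e x) = inner ℝ (x0 e x • e + xp e x) (xp e x) := by rw [← x_eq e x]
  rw [h, inner_add_left, inner_smul_left, inner_e_xp e he, real_inner_self_eq_norm_sq]
  simp

theorem QQ_lip (he : ‖e‖ = 1) : LipschitzWith 6 (QQ e) := by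
  refine LipschitzWith.of_dist_le_mul fun x z => ?_
  rw [dist_eq_norm, dist_eq_norm]
  have h1 : QQ e x - QQ e z = (x0 e x - x0 e z) • e +
      ((max 0 (‖xp e x‖ + 2 * min (x0 e x) 0) / ‖xp e x‖) • xp e x -
      (max 0 (‖xp e z‖ + 2 * min (x0 e z) 0) / ‖xp e z‖) • xp e z) := by
    unfold QQ
    rw [sub_smul]
    abel
  have h2 := radial_lip (xp e x) (xp e z) (max 0 (‖xp e x‖ + 2 * min (x0 e x) 0))
    (max 0 (‖xp e z‖ + 2 * min (x0 e z) 0)) (le_max_left _ _)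
    (max_le (norm_nonneg _) (by linarith [min_le_right (x0 e x) 0])) (le_max_left _ _)
    (max_le (norm_nonneg _) (by linarith [min_le_right (x0 e z) 0]))
  have h3 : |max 0 (‖xp e x‖ + 2 * min (x0 e x) 0) - max 0 (‖xp e z‖ + 2 * min (x0 e z) 0)|
      ≤ 3 * ‖x - z‖ := by
    have h4 : |max 0 (‖xp e x‖ + 2 * min (x0 e x) 0) - max 0 (‖xp e z‖ + 2 * min (x0 e z) 0)|
        ≤ |(‖xp e x‖ + 2 * min (x0 e x) 0) - (‖xp e z‖ + 2 * min (x0 e z) 0)| := by
      have := abs_max_sub_max_le_max 0 (‖xp e x‖ + 2 * min (x0 e x) 0) 0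
        (‖xp e z‖ + 2 * min (x0 e z) 0)
      simpa using this
    have h5 : |min (x0 e x) 0 - min (x0 e z) 0| ≤ |x0 e x - x0 e z| := by
      have := abs_min_sub_min_le_max (x0 e x) 0 (x0 e z) 0
      simpa using this
    have h6 : |x0 e x - x0 e z| ≤ ‖x - z‖ := by
      rw [x0_sub]; exact abs_x0_le e he _
    have h7 : |‖xp e x‖ - ‖xp e z‖| ≤ ‖x - z‖ := by
      refine (abs_norm_sub_norm_le _ _).trans ?_
      rw [xp_sub]; exact norm_xp_le e he _
    calc _ ≤ |(‖xp e x‖ + 2 * min (x0 e x) 0) - (‖xp e z‖ + 2 * min (x0 e z) 0)| := h4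
      _ = |(‖xp e x‖ - ‖xp e z‖) + 2 * (min (x0 e x) 0 - min (x0 e z) 0)| := by ring_nf
      _ ≤ |‖xp e x‖ - ‖xp e z‖| + |2 * (min (x0 e x) 0 - min (x0 e z) 0)| := abs_add_le _ _
      _ = |‖xp e x‖ - ‖xp e z‖| + 2 * |min (x0 e x) 0 - min (x0 e z) 0| := by
          rw [abs_mul, abs_two]
      _ ≤ 3 * ‖x - z‖ := by linarith
  have h8 : ‖xp e x - xp e z‖ ≤ ‖x - z‖ := by
    rw [xp_sub]; exact norm_xp_le e he _
  have h9 : ‖(x0 e x - x0 e z) • e‖ ≤ ‖x - z‖ := by
    rw [norm_smul, he, mul_one, Real.norm_eq_abs, x0_sub]; exact abs_x0_le e he _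
  rw [h1]
  refine (norm_add_le _ _).trans ?_
  have : ((6 : ℝ≥0) : ℝ) = 6 := rfl
  rw [this]
  linarith

theorem QQ_inner (he : ‖e‖ = 1) (x : E) :
    inner ℝ x (QQ e x) = x0 e x ^ 2 + max 0 (‖xp e x‖ + 2 * min (x0 e x) 0) * ‖xp e x‖ := by
  unfold QQ
  rw [inner_add_right, inner_smul_right, inner_smul_right, inner_x_xp e he, real_inner_comm]
  change x0 e x * x0 e x + _ = _
  by_cases hb : ‖xp e x‖ = 0
  · rw [hb]; ring
  · field_simp

theorem QQ_coer (he : ‖e‖ = 1) (x : E) : (1 / 5) * ‖x‖ ^ 2 ≤ inner ℝ x (QQ e x) := by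
  rw [QQ_inner e he, norm_sq_eq e he]
  have hb := norm_nonneg (xp e x)
  set a := x0 e x
  set b := ‖xp e x‖
  rcases le_total 0 a with ha | ha
  · rw [min_eq_right ha, mul_zero, add_zero, max_eq_right hb]
    nlinarith
  · rw [min_eq_left ha]
    rcases le_total 0 (b + 2 * a) with h | h
    · rw [max_eq_right h]
      nlinarith [sq_nonneg (b + 2 * a), mul_nonneg h hb, mul_nonneg h (neg_nonneg.2 ha)]
    · rw [max_eq_left h]
      nlinarith

theorem norm_YY (x : E) (hw : 0 < ww e x) : ‖YY e x‖ = ‖xp e x‖ / ww e x := by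
  unfold YY
  rw [norm_smul, norm_inv, Real.norm_of_nonneg hw.le]
  field_simp

/-- in all regions `Q x` is a multiple of `nn (Y x)` -/
theorem QQ_nn (x : E) (hw : 0 < ww e x) : ∃ m : ℝ, QQ e x = m • nn e (YY e x) := by
  have hb := norm_nonneg (xp e x)
  by_cases h1 : x0 e x < -(‖xp e x‖ / 2)
  · -- region B
    have hww : ww e x = ‖xp e x‖ / 2 := by
      unfold ww; exact max_eq_right (by linarith)
    have hb' : 0 < ‖xp e x‖ := by rw [hww] at hw; linarith
    have hY : ‖YY e x‖ = 2 := by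
      rw [norm_YY e x hw, hww]; field_simp
    refine ⟨-(x0 e x), ?_⟩
    unfold QQ nn
    rw [hY, min_eq_left (show x0 e x ≤ 0 by linarith),
      max_eq_left (show ‖xp e x‖ + 2 * x0 e x ≤ 0 by linarith)]
    norm_num
  · push Not at h1
    have hww : ww e x = x0 e x + ‖xp e x‖ := by
      unfold ww; exact max_eq_left (by linarith)
    refine ⟨ww e x, ?_⟩
    by_cases hb0 : ‖xp e x‖ = 0
    · have hxp : xp e x = 0 := norm_eq_zero.1 hb0
      have hY : YY e x = 0 := by unfold YY; rw [hxp, smul_zero]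
      unfold QQ nn
      rw [hY, hxp, hww, hb0]
      simp
    · have hb' : 0 < ‖xp e x‖ := lt_of_le_of_ne hb (Ne.symm hb0)
      unfold QQ nn
      rw [norm_YY e x hw]
      unfold YY
      have h2 : (2 - ‖xp e x‖ / ww e x) / (‖xp e x‖ / ww e x)
          = (‖xp e x‖ + 2 * x0 e x) / ‖xp e x‖ := by
        have : ww e x ≠ 0 := hw.ne'
        field_simp
        rw [hww]; ring
      have h3 : min 1 ((2 - ‖xp e x‖ / ww e x) / (‖xp e x‖ / ww e x))
          = max 0 (‖xp e x‖ + 2 * min (x0 e x) 0) / ‖xp e x‖ := by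
        rw [h2]
        rcases le_total 0 (x0 e x) with ha | ha
        · rw [min_eq_right ha, mul_zero, add_zero, max_eq_right hb, div_self hb0]
          apply min_eq_left
          rw [le_div_iff₀ hb']
          linarith
        · rw [min_eq_left ha, max_eq_right (by linarith)]
          apply min_eq_right
          rw [div_le_one hb']
          linarith
      rw [h3, smul_add, smul_smul, smul_smul, smul_smul]
      congr 2
      · have : ww e x ≠ 0 := hw.ne'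
        field_simp
        rw [hww]; ring
      · have : ww e x ≠ 0 := hw.ne'
        field_simp

theorem QQ_nu (x : E) (hw : 0 < ww e x) : ∃ m : ℝ, QQ e x = m • nu e (YY e x) := by
  obtain ⟨m, hm⟩ := QQ_nn e x hw
  refine ⟨m * ‖nn e (YY e x)‖, ?_⟩
  unfold nu
  by_cases h : nn e (YY e x) = 0
  · rw [hm, h]; simp
  · rw [hm, smul_smul, mul_assoc, mul_inv_cancel₀ (norm_ne_zero_iff.2 h), mul_one]

theorem SS_ww (he : ‖e‖ = 1) (x : E) (hx : x ∈ SS e) : (1 / 3) * ‖x‖ ≤ ww e x := by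
  have hx' : -(‖xp e x‖ / 2) < x0 e x := hx
  have hb := norm_nonneg (xp e x)
  have h1 := norm_sq_eq e he x
  have h2 : x0 e x + ‖xp e x‖ ≤ ww e x := le_max_left _ _
  have h3 : ‖xp e x‖ / 2 ≤ ww e x := le_max_right _ _
  have h0 : 0 ≤ ww e x := by linarith
  have h4 : ((1 / 3) * ‖x‖) ^ 2 ≤ ww e x ^ 2 := by
    rw [mul_pow, h1]
    rcases le_total 0 (x0 e x) with ha | ha
    · nlinarith
    · nlinarith
  exact (pow_le_pow_iff_left₀ (by positivity) h0 two_ne_zero).1 h4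

theorem SS_compl (he : ‖e‖ = 1) (x : E) (hx : x ∉ SS e) :
    QQ e x = x0 e x • e ∧ (ww e x = 0 ∨ nu e (YY e x) = -e) := by
  have hx' : x0 e x ≤ -(‖xp e x‖ / 2) := not_lt.1 hx
  have hb := norm_nonneg (xp e x)
  have hww : ww e x = ‖xp e x‖ / 2 := by
    unfold ww; exact max_eq_right (by linarith)
  constructor
  · unfold QQ
    rw [min_eq_left (show x0 e x ≤ 0 by linarith),
      max_eq_left (show ‖xp e x‖ + 2 * x0 e x ≤ 0 by linarith), zero_div, zero_smul, add_zero]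
  · by_cases hb0 : ‖xp e x‖ = 0
    · left; rw [hww, hb0]; norm_num
    · right
      have hb' : 0 < ‖xp e x‖ := lt_of_le_of_ne hb (Ne.symm hb0)
      have hw : 0 < ww e x := by rw [hww]; linarith
      have hY : ‖YY e x‖ = 2 := by
        rw [norm_YY e x hw, hww]; field_simp
      have hn : nn e (YY e x) = -e := by
        unfold nn
        rw [hY]
        norm_num
      unfold nu
      rw [hn, norm_neg, he, inv_one, one_smul]

theorem SS_open : IsOpen (SS e) := by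
  unfold SS
  refine isOpen_lt ?_ ?_
  · unfold xp x0; fun_prop
  · unfold x0; fun_prop

end

/-- MAPC: the map `Q`. -/
theorem mapc : MAPCStmt := by
  intro E _ _ e he
  refine ⟨⟨6, QQ_lip e he⟩, ?_, QQ_coer e he, fun x hw => QQ_nu e x hw, SS_ww e he, SS_open e,
    SS_compl e he⟩
  unfold QQ xp x0
  simp

end Pool.Agent.BAN.H46
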