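import Pool.Agent.Helper10_BAN.Stmt

set_option autoImplicit false

/-!
# INVIP: an inner product invariant under all linear symmetries of a gauge (squad BAN, helper46)

`invip_gen` works for an arbitrary function `φ : V → ℝ` comparable with the norm (no convexity,
no symmetry); `invip` is the module `INVIPStmt`.
-/

namespace Pool.Agent.BAN.H46

open MeasureTheory Filter Topology Set Module

/-- A positive definite hermitian form admits an isometric coordinate system. -/
theorem core_coord (𝕜 : Type) [RCLike 𝕜] (V : Type) [AddCommGroup V] [Module 𝕜 V]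
    [FiniteDimensional 𝕜 V] (cd : InnerProductSpace.Core 𝕜 V) :
    ∃ e : V ≃ₗ[𝕜] EuclideanSpace 𝕜 (Fin (finrank 𝕜 V)),
      ∀ x, ‖e x‖ ^ 2 = RCLike.re (cd.inner x x) := by
  let _ : NormedAddCommGroup V := cd.toNormedAddCommGroup
  let _ : InnerProductSpace 𝕜 V := InnerProductSpace.ofCore cd.toCore
  refine ⟨(stdOrthonormalBasis 𝕜 V).repr.toLinearEquiv, fun x => ?_⟩
  have h1 : ‖(stdOrthonormalBasis 𝕜 V).repr.toLinearEquiv x‖ = ‖x‖ :=
    (stdOrthonormalBasis 𝕜 V).repr.norm_map x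
  rw [h1]
  exact InnerProductSpace.norm_sq_eq_re_inner (𝕜 := 𝕜) x

section Form

variable {𝕜 : Type} [RCLike 𝕜] {V : Type} [NormedAddCommGroup V] [InnerProductSpace 𝕜 V]
  [FiniteDimensional 𝕜 V] [MeasurableSpace V] [BorelSpace V] (μ : Measure V) [μ.IsAddHaarMeasure]

/-- the second moment form of a body `B` -/
noncomputable def qf (μ : Measure V) (B : Set V) (x y : V) : 𝕜 :=
  ∫ u in B, inner 𝕜 x u * inner 𝕜 u y ∂μ

theorem qf_int {B : Set V} (hB : IsCompact B) (x y : V) :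
    IntegrableOn (fun u => inner 𝕜 x u * inner 𝕜 u y : V → 𝕜) B μ := by
  apply ContinuousOn.integrableOn_compact hB
  apply Continuous.continuousOn
  fun_prop

theorem qf_self (B : Set V) (x : V) :
    (qf μ B x x : 𝕜) = ((∫ u in B, ‖(inner 𝕜 x u : 𝕜)‖ ^ 2 ∂μ : ℝ) : 𝕜) := by
  unfold qf
  rw [← integral_ofReal]
  congr 1
  ext u
  rw [← inner_conj_symm u x, RCLike.mul_conj]
  push_cast
  rfl

/-- the second moment form is a positive definite hermitian form -/
@[instance_reducible]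
noncomputable def qcore {B : Set V} (hB : IsCompact B) (r : ℝ) (hr : 0 < r)
    (hrB : Metric.ball (0 : V) r ⊆ B) : InnerProductSpace.Core 𝕜 V where
  inner x y := qf μ B x y
  conj_inner_symm x y := by
    unfold qf
    rw [← integral_conj]
    congr 1
    ext u
    rw [map_mul, inner_conj_symm, inner_conj_symm, mul_comm]
  re_inner_nonneg x := by
    rw [qf_self, RCLike.ofReal_re]
    positivity
  add_left x y z := by
    unfold qf
    rw [← integral_add (μ := μ.restrict B) (f := fun u => (inner 𝕜 x u * inner 𝕜 u z : 𝕜))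
      (g := fun u => (inner 𝕜 y u * inner 𝕜 u z : 𝕜)) (qf_int μ hB x z) (qf_int μ hB y z)]
    congr 1
    ext u
    rw [inner_add_left, add_mul]
  smul_left x y r := by
    unfold qf
    rw [← integral_const_mul]
    congr 1
    ext u
    rw [inner_smul_left, mul_assoc]
  definite x hx := by
    change qf μ B x x = 0 at hx
    rw [qf_self] at hx
    have h0 : ∫ u in B, ‖(inner 𝕜 x u : 𝕜)‖ ^ 2 ∂μ = 0 := by exact_mod_cast hx
    have hc : Continuous fun u : V => ‖(inner 𝕜 x u : 𝕜)‖ ^ 2 := by fun_prop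
    rw [setIntegral_eq_zero_iff_of_nonneg_ae (Eventually.of_forall fun u => by positivity)
      (hc.continuousOn.integrableOn_compact hB)] at h0
    have h1 : (fun u : V => ‖(inner 𝕜 x u : 𝕜)‖ ^ 2) =ᵐ[μ.restrict (Metric.ball (0 : V) r)] 0 :=
      ae_restrict_of_ae_restrict_of_subset hrB h0
    have h2 := Measure.eqOn_open_of_ae_eq h1 Metric.isOpen_ball hc.continuousOn
      continuousOn_const
    by_contra hne
    have hx0 : 0 < ‖x‖ := norm_pos_iff.2 hne
    have h3 : (((r / (2 * ‖x‖) : ℝ) : 𝕜) • x) ∈ Metric.ball (0 : V) r := by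
      rw [mem_ball_zero_iff, norm_smul, RCLike.norm_ofReal, abs_of_pos (by positivity)]
      have : r / (2 * ‖x‖) * ‖x‖ = r / 2 := by field_simp
      linarith
    have h4 := h2 h3
    simp only [inner_smul_right, inner_self_eq_norm_sq_to_K, Pi.zero_apply] at h4
    have h5 : ((r / (2 * ‖x‖) : ℝ) : 𝕜) * ((‖x‖ : 𝕜)) ^ 2 = 0 := by
      have := pow_eq_zero_iff (two_ne_zero) |>.1 h4
      exact norm_eq_zero.1 this
    have h6 : (r / (2 * ‖x‖)) * ‖x‖ ^ 2 = 0 := by exact_mod_cast h5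
    have h7 : 0 < (r / (2 * ‖x‖)) * ‖x‖ ^ 2 := by positivity
    linarith

end Form

/-- the (complex) polar body -/
def PB (𝕜 : Type) [RCLike 𝕜] {V : Type} [NormedAddCommGroup V] [InnerProductSpace 𝕜 V]
    (φ : V → ℝ) : Set V := {y | ∀ x, RCLike.re (inner 𝕜 y x : 𝕜) ≤ φ x}

section Main

variable {𝕜 : Type} [RCLike 𝕜] {V : Type} [NormedAddCommGroup V] [InnerProductSpace 𝕜 V]

theorem PB_closed (φ : V → ℝ) : IsClosed (PB 𝕜 φ) := by
  have : PB 𝕜 φ = ⋂ x, {y | RCLike.re (inner 𝕜 y x : 𝕜) ≤ φ x} := by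
    ext y; simp [PB]
  rw [this]
  refine isClosed_iInter fun x => isClosed_le ?_ continuous_const
  fun_prop

theorem PB_bdd {φ : V → ℝ} {C : ℝ} (h : ∀ v, φ v ≤ C * ‖v‖) :
    PB 𝕜 φ ⊆ Metric.closedBall 0 (max C 0) := by
  intro y hy
  rw [mem_closedBall_zero_iff]
  have h1 : ‖y‖ ^ 2 ≤ C * ‖y‖ := by
    have := (hy y).trans (h y)
    rwa [← InnerProductSpace.norm_sq_eq_re_inner (𝕜 := 𝕜) y] at this
  rcases eq_or_lt_of_le (norm_nonneg y) with h0 | h0
  · rw [← h0]; exact le_max_right _ _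
  · refine le_trans ?_ (le_max_left _ _)
    nlinarith

theorem PB_ball {φ : V → ℝ} {c : ℝ} (h : ∀ v, c * ‖v‖ ≤ φ v) :
    Metric.ball (0 : V) c ⊆ PB 𝕜 φ := by
  intro y hy x
  rw [mem_ball_zero_iff] at hy
  calc RCLike.re (inner 𝕜 y x : 𝕜) ≤ ‖(inner 𝕜 y x : 𝕜)‖ := RCLike.re_le_norm _
    _ ≤ ‖y‖ * ‖x‖ := norm_inner_le_norm _ _
    _ ≤ c * ‖x‖ := by gcongr
    _ ≤ φ x := h x

/-- General form: for a function `φ` comparable with the norm there is a linear change of
coordinates after which every linear symmetry of `φ` is orthogonal (unitary). -/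
theorem invip_gen (𝕜 : Type) [RCLike 𝕜] (V : Type) [NormedAddCommGroup V]
    [InnerProductSpace 𝕜 V] [FiniteDimensional 𝕜 V] (φ : V → ℝ) (c C : ℝ) (hc : 0 < c)
    (h1 : ∀ v, c * ‖v‖ ≤ φ v) (h2 : ∀ v, φ v ≤ C * ‖v‖) :
    ∃ T : V ≃L[𝕜] V, ∀ g : V →L[𝕜] V, (∀ v, φ (T (g v)) = φ (T v)) → ∀ v, ‖g v‖ = ‖v‖ := by
  classical
  let _ : MeasurableSpace V := borel V
  have _ : BorelSpace V := ⟨rfl⟩
  have _ : ProperSpace V := FiniteDimensional.proper 𝕜 V
  have _ : CompleteSpace V := FiniteDimensional.complete 𝕜 V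
  let μ : Measure V := Measure.addHaar
  have hBc : IsCompact (PB 𝕜 φ) :=
    (isCompact_closedBall (0 : V) (max C 0)).of_isClosed_subset (PB_closed φ) (PB_bdd h2)
  obtain ⟨e, he⟩ := core_coord 𝕜 V (qcore μ hBc c hc (PB_ball h1))
  have he' : ∀ x, ‖e x‖ ^ 2 = RCLike.re (qf μ (PB 𝕜 φ) x x : 𝕜) := he
  let e0 : V ≃ₗ[𝕜] EuclideanSpace 𝕜 (Fin (finrank 𝕜 V)) :=
    (stdOrthonormalBasis 𝕜 V).repr.toLinearEquiv
  have he0 : ∀ x, ‖e0 x‖ = ‖x‖ := (stdOrthonormalBasis 𝕜 V).repr.norm_map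
  let T : V ≃L[𝕜] V := (e0.trans e.symm).toContinuousLinearEquiv
  have hT : ∀ x, e (T x) = e0 x := fun x => e.apply_symm_apply (e0 x)
  refine ⟨T, fun g hg v => ?_⟩
  -- the conjugated symmetry
  have hinj : Function.Injective ((T : V →L[𝕜] V) ∘L g ∘L (T.symm : V →L[𝕜] V)).toLinearMap := by
    rw [injective_iff_map_eq_zero]
    intro w hw
    have hw' : T (g (T.symm w)) = 0 := hw
    have h3 := hg (T.symm w)
    rw [hw', T.apply_symm_apply] at h3
    have h4 : φ 0 ≤ 0 := by simpa using h2 0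
    have h5 := h1 w
    have h6 : c * ‖w‖ ≤ 0 := by linarith
    have h7 : ‖w‖ ≤ 0 := by
      by_contra h
      push Not at h
      have := mul_pos hc h
      linarith
    exact norm_le_zero_iff.1 h7
  let H : V ≃L[𝕜] V := (LinearEquiv.ofInjectiveEndo _ hinj).toContinuousLinearEquiv
  have hH : ∀ w, H w = T (g (T.symm w)) := fun w => rfl
  have hφH : ∀ w, φ (H w) = φ w := by
    intro w
    rw [hH, hg, T.apply_symm_apply]
  have hφH' : ∀ w, φ (H.symm w) = φ w := by
    intro w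
    rw [← hφH (H.symm w), H.apply_symm_apply]
  -- the adjoint equivalence
  let A : V →L[𝕜] V := ContinuousLinearMap.adjoint (H : V →L[𝕜] V)
  have hA : ∀ u x, inner 𝕜 (A u) x = (inner 𝕜 u (H x) : 𝕜) := fun u x =>
    ContinuousLinearMap.adjoint_inner_left (H : V →L[𝕜] V) x u
  have hAinj : Function.Injective A.toLinearMap := by
    rw [injective_iff_map_eq_zero]
    intro u hu
    have hu' : A u = 0 := hu
    have h3 := hA u (H.symm u)
    rw [hu', inner_zero_left, H.apply_symm_apply] at h3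
    exact inner_self_eq_zero.1 h3.symm
  let A' : V ≃L[𝕜] V := (LinearEquiv.ofInjectiveEndo A.toLinearMap hAinj).toContinuousLinearEquiv
  have hA' : ∀ u, A' u = A u := fun u => rfl
  have hpre : A' ⁻¹' (PB 𝕜 φ) = PB 𝕜 φ := by
    ext y
    constructor
    · intro hy x
      have h3 := hy (H.symm x)
      rw [hA', hA, H.apply_symm_apply, hφH'] at h3
      exact h3
    · intro hy x
      rw [hA', hA, ← hφH x]
      exact hy (H x)
  have hmeas : MeasurableSet (PB 𝕜 φ) := (PB_closed φ).measurableSet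
  have hmap : μ.map A' = μ := by
    have _ : (μ.map A').IsAddHaarMeasure := A'.isAddHaarMeasure_map μ
    have h3 := Measure.isAddLeftInvariant_eq_smul (μ.map A') μ
    have hm : Measurable A' := A'.continuous.measurable
    have h4 : (μ.map A') (PB 𝕜 φ) = μ (PB 𝕜 φ) := by
      rw [Measure.map_apply hm hmeas, hpre]
    have h5 : μ (PB 𝕜 φ) ≠ 0 := by
      intro h0
      have h6 : μ (Metric.ball (0 : V) c) = 0 := measure_mono_null (PB_ball h1) h0
      exact (Metric.measure_ball_pos μ (0 : V) hc).ne' h6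
    have h6 : μ (PB 𝕜 φ) ≠ ⊤ := hBc.measure_lt_top.ne
    rw [h3] at h4
    rw [Measure.smul_apply] at h4
    have h7 : Measure.addHaarScalarFactor (μ.map A') μ = 1 := by
      have h8 : (Measure.addHaarScalarFactor (μ.map A') μ : ENNReal) * μ (PB 𝕜 φ)
          = 1 * μ (PB 𝕜 φ) := by
        rw [one_mul]; exact h4
      have h9 := (ENNReal.mul_left_inj h5 h6).1 h8
      exact_mod_cast h9
    rw [h3, h7, one_smul]
  have hq : ∀ x, (qf μ (PB 𝕜 φ) (H x) (H x) : 𝕜) = qf μ (PB 𝕜 φ) x x := by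
    intro x
    unfold qf
    have hF : Continuous fun u : V => (inner 𝕜 x u * inner 𝕜 u x : 𝕜) := by fun_prop
    calc ∫ u in PB 𝕜 φ, (inner 𝕜 (H x) u * inner 𝕜 u (H x) : 𝕜) ∂μ
        = ∫ u in A' ⁻¹' (PB 𝕜 φ), (inner 𝕜 x (A' u) * inner 𝕜 (A' u) x : 𝕜) ∂μ := by
          rw [hpre]
          congr 1
          ext u
          rw [hA', hA, ← inner_conj_symm x (A u), hA, inner_conj_symm]
      _ = ∫ u in PB 𝕜 φ, (inner 𝕜 x u * inner 𝕜 u x : 𝕜) ∂(μ.map A') := by
          rw [setIntegral_map hmeas hF.aestronglyMeasurable A'.continuous.measurable.aemeasurable]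
      _ = _ := by rw [hmap]
  have h3 : ‖e0 (g v)‖ ^ 2 = ‖e0 v‖ ^ 2 := by
    rw [← hT, ← hT, he', he']
    have h4 : T (g v) = H (T v) := by rw [hH, T.symm_apply_apply]
    rw [h4, hq]
  rw [he0, he0] at h3
  exact (pow_left_inj₀ (norm_nonneg _) (norm_nonneg _) two_ne_zero).1 h3

/-- A positive definite seminorm on a finite-dimensional space is comparable with the norm. -/
theorem seminorm_bounds (𝕜 : Type) [RCLike 𝕜] (V : Type) [NormedAddCommGroup V]
    [InnerProductSpace 𝕜 V] [FiniteDimensional 𝕜 V] (φ : Seminorm 𝕜 V)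
    (hpos : ∀ v, v ≠ 0 → 0 < φ v) :
    ∃ c C : ℝ, 0 < c ∧ (∀ v, c * ‖v‖ ≤ φ v) ∧ (∀ v, φ v ≤ C * ‖v‖) := by
  have _ : ProperSpace V := FiniteDimensional.proper 𝕜 V
  -- upper bound: sum over an orthonormal basis
  let b := stdOrthonormalBasis 𝕜 V
  have hup : ∀ v, φ v ≤ (∑ i, φ (b i)) * ‖v‖ := by
    intro v
    have h1 : v = ∑ i, b.repr v i • b i := (b.sum_repr v).symm
    calc φ v = φ (∑ i, b.repr v i • b i) := by rw [← h1]
      _ ≤ ∑ i, φ (b.repr v i • b i) :=
          Finset.le_sum_of_subadditive φ (map_zero φ).le (map_add_le_add φ) _ _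
      _ = ∑ i, ‖b.repr v i‖ * φ (b i) := by
          simp only [map_smul_eq_mul]
      _ ≤ ∑ i, ‖v‖ * φ (b i) := by
          refine Finset.sum_le_sum fun i _ => ?_
          have : ‖b.repr v i‖ ≤ ‖v‖ := by
            rw [← b.repr.norm_map v]
            exact PiLp.norm_apply_le _ _
          exact mul_le_mul_of_nonneg_right this (apply_nonneg φ _)
      _ = (∑ i, φ (b i)) * ‖v‖ := by rw [← Finset.mul_sum, mul_comm]
  have hS : 0 ≤ ∑ i, φ (b i) := Finset.sum_nonneg fun i _ => apply_nonneg φ _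
  have hcont : Continuous φ := by
    have : LipschitzWith ⟨∑ i, φ (b i), hS⟩ φ := by
      refine LipschitzWith.of_dist_le_mul fun x y => ?_
      rw [Real.dist_eq, dist_eq_norm]
      exact (abs_sub_map_le_sub φ x y).trans (hup _)
    exact this.continuous
  by_cases hV : ∃ v0 : V, v0 ≠ 0
  · obtain ⟨v0, hv0⟩ := hV
    have hne : (Metric.sphere (0 : V) 1).Nonempty := by
      refine ⟨((‖v0‖⁻¹ : ℝ) : 𝕜) • v0, ?_⟩
      rw [mem_sphere_zero_iff_norm, norm_smul, RCLike.norm_ofReal, abs_of_nonneg (by positivity)]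
      exact inv_mul_cancel₀ (norm_pos_iff.2 hv0).ne'
    obtain ⟨w, hw, hmin⟩ := (isCompact_sphere (0 : V) 1).exists_isMinOn hne hcont.continuousOn
    have hw1 : ‖w‖ = 1 := by rwa [mem_sphere_zero_iff_norm] at hw
    refine ⟨φ w, _, hpos w (fun h => by rw [h, norm_zero] at hw1; norm_num at hw1), fun v => ?_,
      hup⟩
    by_cases hv : v = 0
    · simp [hv]
    have hv0 : 0 < ‖v‖ := norm_pos_iff.2 hv
    have hmem : ((‖v‖⁻¹ : ℝ) : 𝕜) • v ∈ Metric.sphere (0 : V) 1 := by
      rw [mem_sphere_zero_iff_norm, norm_smul, RCLike.norm_ofReal, abs_of_nonneg (by positivity)]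
      exact inv_mul_cancel₀ hv0.ne'
    have h3 : φ w ≤ φ (((‖v‖⁻¹ : ℝ) : 𝕜) • v) := hmin hmem
    rw [map_smul_eq_mul, RCLike.norm_ofReal, abs_of_nonneg (by positivity)] at h3
    have h4 := mul_le_mul_of_nonneg_right h3 hv0.le
    have h5 : ‖v‖⁻¹ * φ v * ‖v‖ = φ v := by field_simp
    linarith
  · push Not at hV
    refine ⟨1, _, one_pos, fun v => ?_, hup⟩
    rw [hV v]; simp

/-- INVIP: an inner product invariant under all linear isometries of a norm. -/
theorem invip : INVIPStmt := by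
  intro 𝕜 _ V _ _ _ φ hpos
  obtain ⟨c, C, hc, h1, h2⟩ := seminorm_bounds 𝕜 V φ hpos
  exact invip_gen 𝕜 V φ c C hc h1 h2

end Main

end Pool.Agent.BAN.H46
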